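import Pool.Agent.Q164.ST.Stm

/-!
# Project ST, job ST-CUT: a random set cuts half of the pairs
-/

set_option autoImplicit false

namespace Pool.Agent.Q14.ST

open Finset Pool.Agent.Q164.ST

/-- the condition on `u` -/
def cutP {V : Type} (a b : V → V) (J : Finset V) (u : V) : Prop :=
  (a u = b u ∧ a u ∈ J) ∨ (a u ≠ b u ∧ ¬ (a u ∈ J ↔ b u ∈ J))

open Classical in
theorem cutP_flip {V : Type} (a b : V → V) (J : Finset V) (u : V) :
    cutP a b (symmDiff J {a u}) u ↔ ¬ cutP a b J u := by
  unfold cutP
  have ha : a u ∈ symmDiff J {a u} ↔ a u ∉ J := by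
    rw [Finset.mem_symmDiff, Finset.mem_singleton]
    tauto
  by_cases h : a u = b u
  · rw [ha]
    tauto
  · have hb : b u ∈ symmDiff J {a u} ↔ b u ∈ J := by
      rw [Finset.mem_symmDiff, Finset.mem_singleton]
      have h' : b u ≠ a u := fun h1 => h h1.symm
      tauto
    rw [ha, hb]
    tauto

theorem task_CUT : S_CUT := by
  intro V _ I a b
  classical
  have hhalf : ∀ u, 2 * (univ.filter fun J : Finset V => cutP a b J u).card =
      Fintype.card (Finset V) := by
    intro u
    have h1 : (univ.filter fun J : Finset V => cutP a b J u).card =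
        (univ.filter fun J : Finset V => ¬ cutP a b J u).card := by
      refine Finset.card_bij' (fun J _ => symmDiff J {a u}) (fun J _ => symmDiff J {a u})
        ?_ ?_ ?_ ?_
      · intro J hJ
        rw [mem_filter] at hJ ⊢
        refine ⟨mem_univ _, ?_⟩
        rw [cutP_flip]
        exact not_not.2 hJ.2
      · intro J hJ
        rw [mem_filter] at hJ ⊢
        refine ⟨mem_univ _, ?_⟩
        rw [cutP_flip]
        exact hJ.2
      · intro J _
        exact symmDiff_symmDiff_cancel_right _ _
      · intro J _
        exact symmDiff_symmDiff_cancel_right _ _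
    have h2 := Finset.card_filter_add_card_filter_not (s := (univ : Finset (Finset V)))
      (fun J : Finset V => cutP a b J u)
    rw [Finset.card_univ] at h2
    omega
  have hsum : ∑ J : Finset V, (I.filter fun u => cutP a b J u).card =
      ∑ u ∈ I, (univ.filter fun J : Finset V => cutP a b J u).card := by
    simp only [Finset.card_filter]
    rw [Finset.sum_comm]
  have hex : ∃ J : Finset V, I.card ≤ 2 * (I.filter fun u => cutP a b J u).card := by
    by_contra hcon
    push Not at hcon
    have h3 : ∑ J : Finset V, 2 * (I.filter fun u => cutP a b J u).card <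
        ∑ _J : Finset V, I.card :=
      Finset.sum_lt_sum_of_nonempty univ_nonempty fun J _ => hcon J
    rw [← Finset.mul_sum, hsum, Finset.mul_sum, Finset.sum_congr rfl fun u _ => hhalf u,
      Finset.sum_const, Finset.sum_const, Finset.card_univ, smul_eq_mul, smul_eq_mul,
      mul_comm] at h3
    exact lt_irrefl _ h3
  obtain ⟨J, hJ⟩ := hex
  refine ⟨(J : Set V), ?_⟩
  have h4 : {u : V | u ∈ I ∧ ((a u = b u ∧ a u ∈ (J : Set V)) ∨
      (a u ≠ b u ∧ ¬ (a u ∈ (J : Set V) ↔ b u ∈ (J : Set V))))} =
      ((I.filter fun u => cutP a b J u : Finset V) : Set V) := by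
    ext u
    rw [Finset.coe_filter]
    exact Iff.rfl
  rw [h4, Set.ncard_coe_finset]
  exact hJ

end Pool.Agent.Q14.ST
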