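import Pool.Agent.Q35.ST.Stm2

/-!
# Project ST of helper35, part 2: rational points near to a free point are not all degenerate (JOB ML)
-/

set_option autoImplicit false

namespace Pool.Agent.Q14.ST

open MvPolynomial Pool.Agent.TH178.MZ Pool.Agent.Q35.ST

/-! ### vector fields and infinitely many points on the curves -/

theorem stable_alg {K : Type} [Field K] [CharZero K] {τ : Type} [Fintype τ] {S : Set (τ → K)}
    {V : Derivation K (MvPolynomial τ K) (MvPolynomial τ K)} (hV : RationallyIntegrable S V)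
    (g : MvPolynomial τ K) {y : τ → K} (hy : y ∈ S)
    (H : ∀ (num : τ → Polynomial K) (den : Polynomial K), den.eval 0 ≠ 0 →
      (∀ l, (num l).eval 0 = den.eval 0 * y l) →
      (∀ t : K, den.eval t ≠ 0 → (fun l => (num l).eval t / den.eval t) ∈ S) →
      {t : K | den.eval t ≠ 0 ∧ eval (fun l => (num l).eval t / den.eval t) g = 0}.Infinite) :
    eval y (V g) = 0 := by
  classical
  rw [Pool.Agent.W572.derivation_eq_sum V g, map_sum]
  by_cases h0 : valueAt y V = 0
  · refine Finset.sum_eq_zero fun l _ => ?_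
    rw [map_mul, show eval y (V (X l)) = 0 from congrFun h0 l, mul_zero]
  obtain ⟨num, den, c, hden, hc, hnum0, hnum1, hcurve⟩ := hV y hy h0
  obtain ⟨k, G, hG⟩ := clear_den num den g
  have hG0 : G = 0 := by
    apply Polynomial.eq_zero_of_infinite_isRoot
    refine (H num den hden hnum0 hcurve).mono ?_
    rintro t ⟨ht, h2⟩
    have h1 := hG K (Polynomial.aeval t) ((den.eval t)⁻¹)
      (by rw [Polynomial.coe_aeval_eq_eval]; exact mul_inv_cancel₀ ht)
    rw [Polynomial.coe_aeval_eq_eval] at h1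
    show G.IsRoot t
    rw [Polynomial.IsRoot, h1]
    have h3 : (aeval fun l => Polynomial.eval t (num l) * (Polynomial.eval t den)⁻¹) g =
        eval (fun l => Polynomial.eval t (num l) / Polynomial.eval t den) g := by
      rw [aeval_def, Algebra.algebraMap_self, eval₂_id]
      simp only [div_eq_mul_inv]
    rw [h3, h2, mul_zero]
  -- the dual number point
  let φ : Polynomial K →ₐ[K] DualNumber K :=
    Polynomial.aeval (TrivSqZeroExt.inr (1 : K) : DualNumber K)
  have hφ : ∀ q : Polynomial K, φ q = TrivSqZeroExt.inl (q.eval 0) +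
      TrivSqZeroExt.inr (q.derivative.eval 0) := by
    intro q
    obtain ⟨h1, h2⟩ := aeval_eps q
    refine TrivSqZeroExt.ext ?_ ?_
    · rw [TrivSqZeroExt.fst_add, TrivSqZeroExt.fst_inl, TrivSqZeroExt.fst_inr, add_zero, ← h1]
    · rw [TrivSqZeroExt.snd_add, TrivSqZeroExt.snd_inl, TrivSqZeroExt.snd_inr, zero_add, ← h2]
  let u : DualNumber K := TrivSqZeroExt.inl (den.eval 0)⁻¹ +
    TrivSqZeroExt.inr (-(den.derivative.eval 0) / (den.eval 0) ^ 2)
  have hu : φ den * u = 1 := by
    rw [hφ]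
    refine TrivSqZeroExt.ext ?_ ?_
    · simp [u, mul_inv_cancel₀ hden]
    · rw [DualNumber.snd_mul]
      simp only [u, TrivSqZeroExt.fst_add, TrivSqZeroExt.fst_inl, TrivSqZeroExt.fst_inr,
        TrivSqZeroExt.snd_add, TrivSqZeroExt.snd_inl, TrivSqZeroExt.snd_inr, add_zero, zero_add,
        TrivSqZeroExt.snd_one]
      field_simp
      ring
  have hQ1 : ∀ l, (φ (num l) * u).fst = y l := by
    intro l
    rw [hφ, TrivSqZeroExt.fst_mul]
    simp only [u, TrivSqZeroExt.fst_add, TrivSqZeroExt.fst_inl, TrivSqZeroExt.fst_inr, add_zero]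
    rw [hnum0]
    field_simp
  have hQ2 : ∀ l, (φ (num l) * u).snd = c / den.eval 0 * valueAt y V l := by
    intro l
    rw [hφ, DualNumber.snd_mul]
    simp only [u, TrivSqZeroExt.fst_add, TrivSqZeroExt.fst_inl, TrivSqZeroExt.fst_inr,
        TrivSqZeroExt.snd_add, TrivSqZeroExt.snd_inl, TrivSqZeroExt.snd_inr, add_zero, zero_add]
    rw [hnum0, hnum1]
    field_simp
    ring
  have h5 := hG (DualNumber K) φ u hu
  rw [hG0, map_zero] at h5
  have h6 : aeval (fun l => φ (num l) * u) g = 0 := by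
    have h7 : u ^ k * (φ den ^ k * aeval (fun l => φ (num l) * u) g) = 0 := by
      rw [← h5, mul_zero]
    rw [← mul_assoc, ← mul_pow, mul_comm u, hu, one_pow, one_mul] at h7
    exact h7
  have h8 := (taylor (fun l => φ (num l) * u) g).2
  rw [h6, TrivSqZeroExt.snd_zero] at h8
  simp only [hQ1, hQ2] at h8
  have h9 : c / den.eval 0 * ∑ l, eval y (pderiv l g * V (X l)) = 0 := by
    refine Eq.trans ?_ h8.symm
    rw [Finset.mul_sum]
    refine Finset.sum_congr rfl fun l _ => ?_
    rw [map_mul, valueAt_apply, aeval_def, Algebra.algebraMap_self, eval₂_id]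
    ring
  exact (mul_eq_zero.1 h9).resolve_left (div_ne_zero hc hden)

/-! ### several places -/

section places

variable {K : Type} [Field K] {ι : Type} {L : ι → Type}
  [∀ v, NontriviallyNormedField (L v)] {σ : ∀ v, K →+* L v}

theorem inf_nhds [Nonempty ι] (s : ∀ v, L v) {W : Set (∀ v, L v)} (hW : W ∈ nhds s) : W.Infinite := by
  classical
  obtain ⟨v⟩ := ‹Nonempty ι›
  set f : L v → ∀ v, L v := fun t => Function.update s v t with hf
  have hc : Continuous f := continuous_const.update v continuous_id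
  have hfs : f (s v) = s := Function.update_eq_self v s
  have h1 : f ⁻¹' W ∈ nhds (s v) := hc.continuousAt (by rw [hfs]; exact hW)
  have h2 : (f ⁻¹' W).Infinite := infinite_of_mem_nhds (s v) h1
  exact (h2.image (Function.update_injective s v).injOn).mono (Set.image_preimage_subset f W)

theorem inf_pre [Nonempty ι] (hσ : DenseRange (fun a : K => fun v => σ v a)) (s : ∀ v, L v)
    {W : Set (∀ v, L v)} (hW : W ∈ nhds s) : {t : K | (fun v => σ v t) ∈ W}.Infinite := by
  intro hfin
  have h1 : (interior W \ ((fun a : K => fun v => σ v a) '' {t : K | (fun v => σ v t) ∈ W})).Nonempty := by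
    have h2 : (interior W).Infinite := inf_nhds s (interior_mem_nhds.2 hW)
    exact (h2.sdiff (hfin.image _)).nonempty
  obtain ⟨t, ht⟩ := hσ.exists_mem_open
    (isOpen_interior.sdiff (hfin.image _).isClosed) h1
  have h3 : (fun v => σ v t) ∈ W := interior_subset ht.1
  exact ht.2 ⟨t, h3, rfl⟩

variable {τ : Type}

/-- the diagonal embedding of the points over `K` -/
def em (σ : ∀ v, K →+* L v) (y : τ → K) : ∀ v, τ → L v := fun v s => σ v (y s)

/-- the polynomials which vanish at all points of `S` near to `T` -/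
def MI (σ : ∀ v, K →+* L v) (S : Set (τ → K)) (T : ∀ v, τ → L v) : Ideal (MvPolynomial τ K) where
  carrier := {f | ∃ U ∈ nhds T, ∀ y ∈ S, em σ y ∈ U → eval y f = 0}
  add_mem' := by
    rintro f g ⟨U, hU, hf⟩ ⟨V, hV, hg⟩
    refine ⟨U ∩ V, Filter.inter_mem hU hV, fun y hy hyU => ?_⟩
    rw [map_add, hf y hy hyU.1, hg y hy hyU.2, add_zero]
  zero_mem' := ⟨Set.univ, Filter.univ_mem, fun y _ _ => map_zero _⟩
  smul_mem' := by
    rintro c f ⟨U, hU, hf⟩
    refine ⟨U, hU, fun y hy hyU => ?_⟩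
    rw [smul_eq_mul, map_mul, hf y hy hyU, mul_zero]

lemma mem_MI {S : Set (τ → K)} {T : ∀ v, τ → L v} {f : MvPolynomial τ K} :
    f ∈ MI σ S T ↔ ∃ U ∈ nhds T, ∀ y ∈ S, em σ y ∈ U → eval y f = 0 := Iff.rfl

lemma MI_radical (S : Set (τ → K)) (T : ∀ v, τ → L v) : (MI σ S T).IsRadical := by
  rintro f ⟨m, U, hU, hf⟩
  refine ⟨U, hU, fun y hy hyU => ?_⟩
  have := hf y hy hyU
  rw [map_pow] at this
  by_contra h
  exact pow_ne_zero m h this

lemma MI_nzd [Finite τ] {S : Set (τ → K)} {T : ∀ v, τ → L v} {g f : MvPolynomial τ K} {v : ι}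
    (hg : eval₂ (σ v) (T v) g ≠ 0) (h : g * f ∈ MI σ S T) : f ∈ MI σ S T := by
  obtain ⟨U, hU, hf⟩ := h
  have hc : Continuous fun z : (∀ v, τ → L v) => eval₂ (σ v) (z v) g :=
    (continuous_eval₂_mv (σ := σ v) g).comp (continuous_apply v)
  have hV : {z : ∀ v, τ → L v | eval₂ (σ v) (z v) g ≠ 0} ∈ nhds T :=
    hc.continuousAt.eventually_ne hg
  refine ⟨U ∩ {z : ∀ v, τ → L v | eval₂ (σ v) (z v) g ≠ 0}, Filter.inter_mem hU hV, fun y hy hyU => ?_⟩
  have h1 := hf y hy hyU.1
  rw [map_mul] at h1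
  refine (mul_eq_zero.1 h1).resolve_left (fun h2 => hyU.2 ?_)
  show eval₂ (σ v) (fun i => σ v (y i)) g = 0
  have : eval₂ (σ v) (fun i => σ v (y i)) g = σ v (eval y g) := (eval₂_comp (σ v) y g).symm
  rw [this, h2, map_zero]

lemma MI_minimal [Finite τ] {S : Set (τ → K)} {T : ∀ v, τ → L v} {P : Ideal (MvPolynomial τ K)}
    (hP : P ∈ (MI σ S T).minimalPrimes) (v : ι) {g : MvPolynomial τ K} (hg : g ∈ P) :
    eval₂ (σ v) (T v) g = 0 := by
  by_contra h
  obtain ⟨f, hf, hfg⟩ := Ideal.exists_mul_mem_of_mem_minimalPrimes hP hg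
  exact hf (MI_nzd h hfg)

lemma MI_ne_top {S : Set (τ → K)} {T : ∀ v, τ → L v} (h : T ∈ closure (em σ '' S)) : MI σ S T ≠ ⊤ := by
  rw [Ne, Ideal.eq_top_iff_one]
  rintro ⟨U, hU, hf⟩
  obtain ⟨_, hz, y, hy, rfl⟩ := mem_closure_iff_nhds.1 h U hU
  have := hf y hy hz
  rw [map_one] at this
  exact one_ne_zero this

lemma MI_stable [CharZero K] [Fintype ι] [Nonempty ι] [Fintype τ] (hσ : DenseRange (fun a : K => fun v => σ v a))
    {S : Set (τ → K)} {T : ∀ v, τ → L v} {V : Derivation K (MvPolynomial τ K) (MvPolynomial τ K)}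
    (hV : RationallyIntegrable S V) : ∀ f ∈ MI σ S T, V f ∈ MI σ S T := by
  rintro f ⟨U, hU, hf⟩
  refine ⟨interior U, interior_mem_nhds.2 hU, ?_⟩
  intro y hy hyU
  apply stable_alg hV f hy
  intro num den hden hnum0 hcurve
  have hσden : ∀ v, den.eval₂ (σ v) 0 ≠ 0 := by
    intro v
    rw [← map_zero (σ v), Polynomial.eval₂_at_apply]
    exact fun h => hden ((σ v).injective h)
  have hcv : ∀ (v : ι) (q : Polynomial K), Continuous fun s : (∀ v, L v) => q.eval₂ (σ v) (s v) :=
    fun v q => (continuous_eval₂ (σ v) q).comp (continuous_apply v)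
  have hcont : ContinuousAt (fun s : (∀ v, L v) => fun v i => (num i).eval₂ (σ v) (s v) /
      den.eval₂ (σ v) (s v)) 0 := by
    rw [continuousAt_pi]
    intro v
    rw [continuousAt_pi]
    intro i
    exact (hcv v _).continuousAt.div (hcv v _).continuousAt (hσden v)
  have hval : (fun v i => (num i).eval₂ (σ v) ((0 : ∀ v, L v) v) / den.eval₂ (σ v) ((0 : ∀ v, L v) v)) =
      em σ y := by
    funext v i
    rw [Pi.zero_apply, ← map_zero (σ v), Polynomial.eval₂_at_apply, Polynomial.eval₂_at_apply, hnum0,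
      ← map_div₀, mul_div_cancel_left₀ _ hden]
    rfl
  have hW1 : {s : (∀ v, L v) | (fun v i => (num i).eval₂ (σ v) (s v) / den.eval₂ (σ v) (s v)) ∈
      interior U} ∈ nhds (0 : ∀ v, L v) := by
    apply hcont
    show interior U ∈ nhds (fun v i => (num i).eval₂ (σ v) ((0 : ∀ v, L v) v) /
      den.eval₂ (σ v) ((0 : ∀ v, L v) v))
    rw [hval]
    exact isOpen_interior.mem_nhds hyU
  have hW2 : {s : (∀ v, L v) | ∀ v, den.eval₂ (σ v) (s v) ≠ 0} ∈ nhds (0 : ∀ v, L v) := by
    rw [Set.ofPred_forall]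
    exact (Filter.iInter_mem).2 fun v => (hcv v den).continuousAt.eventually_ne (hσden v)
  refine (inf_pre hσ 0 (Filter.inter_mem hW1 hW2)).mono ?_
  rintro t ⟨ht1, ht2⟩
  obtain ⟨v₀⟩ := ‹Nonempty ι›
  have ht3 : den.eval t ≠ 0 := by
    intro h
    apply ht2 v₀
    rw [Polynomial.eval₂_at_apply, h, map_zero]
  refine ⟨ht3, hf _ (hcurve t ht3) (interior_subset ?_)⟩
  have h4 : em σ (fun i => (num i).eval t / den.eval t) =
      fun v i => (num i).eval₂ (σ v) (σ v t) / den.eval₂ (σ v) (σ v t) := by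
    funext v i
    rw [Polynomial.eval₂_at_apply, Polynomial.eval₂_at_apply, ← map_div₀]
    rfl
  rw [h4]
  exact ht1

end places

/-! ### the fibres -/

section fib

variable {κ : Type} [DecidableEq κ] {n : κ → ℕ} {K : Type} [Field K]

/-- the value of the polynomial `qf F l X (C w)` -/
lemma eval_qf (F : MvPolynomial (Pc n) K) (l : κ) (w y : Pc n → K) :
    eval y (qf F l (X : Pc n → MvPolynomial (Pc n) K) (fun s => C (w s))) = qf F l y w := by
  unfold qf
  have h1 : eval y (aeval (upd (X : Pc n → MvPolynomial (Pc n) K) l (fun i => C (w ⟨l, i⟩))) F) =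
      aeval (fun s => eval y (upd (X : Pc n → MvPolynomial (Pc n) K) l (fun i => C (w ⟨l, i⟩)) s)) F := by
    rw [aeval_def, aeval_def, algebraMap_eq, Algebra.algebraMap_self, eval₂_comp_left]
    congr 1
    ext a
    simp
  have h2 : (fun s => eval y (upd (X : Pc n → MvPolynomial (Pc n) K) l (fun i => C (w ⟨l, i⟩)) s)) =
      upd y l (fun i => w ⟨l, i⟩) := by
    funext s
    obtain ⟨j, i⟩ := s
    unfold upd
    by_cases h : j = l
    · subst h
      simp
    · simp [h]
  rw [h1, h2]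

open Classical in
/-- put the coordinates of the factor `l` equal to zero -/
noncomputable def kil (K : Type) [Field K] (n : κ → ℕ) (l : κ) :
    MvPolynomial (Pc n) K →ₐ[K] MvPolynomial (Pc n) K :=
  aeval (fun s => if s.1 = l then 0 else X s)

lemma kil_F {F : MvPolynomial (Pc n) K} (hF : MH Set.univ (fun _ => 2) F) (l : κ) : kil K n l F = 0 := by
  rw [F.as_sum, map_sum]
  refine Finset.sum_eq_zero fun m hm => ?_
  unfold kil
  rw [aeval_monomial]
  obtain ⟨i, hi⟩ : ∃ i, m ⟨l, i⟩ ≠ 0 := by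
    by_contra hcon
    push Not at hcon
    have := hF m hm l (Set.mem_univ _)
    simp [hcon] at this
  have hprod : (m.prod fun s e => (if s.1 = l then (0 : MvPolynomial (Pc n) K) else X s) ^ e) = 0 := by
    apply Finset.prod_eq_zero (i := (⟨l, i⟩ : Pc n)) (Finsupp.mem_support_iff.2 hi)
    simp [hi]
  rw [hprod, mul_zero]

lemma kil_qf (F : MvPolynomial (Pc n) K) (l : κ) (w : Pc n → K) :
    kil K n l (qf F l (X : Pc n → MvPolynomial (Pc n) K) (fun s => C (w s))) =
      qf F l (X : Pc n → MvPolynomial (Pc n) K) (fun s => C (w s)) := by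
  unfold qf
  rw [← AlgHom.comp_apply, comp_aeval]
  congr 2
  funext s
  obtain ⟨j, i⟩ := s
  unfold upd kil
  by_cases h : j = l
  · subst h
    simp
  · simp [h]

/-- a polynomial `F` does not divide the nonzero polynomials `qf F l X (C w)` -/
lemma qf_zero {F : MvPolynomial (Pc n) K} (hF : MH Set.univ (fun _ => 2) F) {l : κ} {w : Pc n → K}
    (h : F ∣ qf F l (X : Pc n → MvPolynomial (Pc n) K) (fun s => C (w s))) :
    qf F l (X : Pc n → MvPolynomial (Pc n) K) (fun s => C (w s)) = 0 := by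
  obtain ⟨G, hG⟩ := h
  have h1 := kil_qf F l w
  rw [hG, map_mul, kil_F hF, zero_mul] at h1
  rw [hG, ← h1]

lemma qf_self (F : MvPolynomial (Pc n) K) (l : κ) (w : Pc n → K) : qf F l w w = eval w F := by
  unfold qf
  have : upd w l (fun i => w ⟨l, i⟩) = w := by
    funext s
    obtain ⟨j, i⟩ := s
    unfold upd
    by_cases h : j = l
    · subst h
      simp
    · simp [h]
  rw [this, aeval_def, Algebra.algebraMap_self, eval₂_id]

end fib

/-- JOB ML -/
theorem ml (mn : S_MIN) (ri : S_RI) : S_ML := by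
  classical
  intro κ _ _ n K _ _ ι _ L _ σ hσ F hF hF0 T hT hfree
  obtain ⟨v, hv, hP⟩ := hfree
  have : Nonempty ι := ⟨v⟩
  set S : Set (Pc n → K) := {y | eval y F = 0} with hS
  have hT' : T ∈ closure (em σ '' S) := by
    refine closure_mono ?_ hT
    rintro _ ⟨y, hy, rfl⟩
    exact ⟨y, hy, rfl⟩
  have hsat : ∀ P ∈ (MI σ S T).minimalPrimes, Sat F P := by
    intro P hP
    refine ⟨hP.1.1, hP.1.2 ⟨Set.univ, Filter.univ_mem, fun y hy _ => hy⟩, ?_, ?_, ?_⟩
    · intro l
      refine StD.min mn ?_ hP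
      intro i j f hf
      rw [← dd_apply]
      exact MI_stable hσ ((ri κ n K F _ hF l le_rfl).1 i j) f hf
    · intro l
      refine StE.min mn ?_ hP
      intro f hf
      rw [← ee_apply]
      exact MI_stable hσ ((ri κ n K F _ hF l le_rfl).2) f hf
    · intro l
      obtain ⟨i, hi⟩ := hv l (Set.mem_univ _)
      refine ⟨i, fun hcon => hi ?_⟩
      have := MI_minimal hP v hcon
      rwa [eval₂_X] at this
  have h1 : ∀ P ∈ (MI σ S T).minimalPrimes, P = Ideal.span {F} := fun P hPm =>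
    hP P (hsat P hPm) fun f hf => MI_minimal hPm v hf
  have hne : MI σ S T ≠ ⊤ := MI_ne_top hT'
  obtain ⟨P₀, hP₀⟩ := Ideal.nonempty_minimalPrimes hne
  have hprime : (Ideal.span {F}).IsPrime := by
    rw [← h1 P₀ hP₀]
    exact hP₀.1.1
  have hFp : Prime F := (Ideal.span_singleton_prime hF0).1 hprime
  have hMI : MI σ S T = Ideal.span {F} := by
    have h2 := Ideal.sInf_minimalPrimes (I := MI σ S T)
    rw [(MI_radical S T).radical] at h2
    rw [← h2]
    have : (MI σ S T).minimalPrimes = {Ideal.span {F}} :=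
      Set.eq_singleton_iff_nonempty_unique_mem.2 ⟨⟨P₀, hP₀⟩, h1⟩
    rw [this, sInf_singleton]
  by_contra hcon
  rw [mem_closure_iff_nhds] at hcon
  push Not at hcon
  obtain ⟨U, hU, hUe⟩ := hcon
  have hdeg : ∀ y ∈ S, em σ y ∈ U → ¬ ND F y := by
    intro y hy hyU hnd
    have : em σ y ∈ U ∩ {S : ∀ v, Pc n → L v | ∃ y : Pc n → K, eval y F = 0 ∧ ND F y ∧
      S = fun v s => σ v (y s)} := ⟨hyU, y, hy, hnd, rfl⟩
    rw [hUe] at this
    exact this
  -- a point outside the hypersurface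
  obtain ⟨w, hw⟩ : ∃ w : Pc n → K, eval w F ≠ 0 := by
    by_contra hc
    push Not at hc
    apply hF0
    apply MvPolynomial.funext
    intro x
    rw [hc x, map_zero]
  have hmem : (∏ l : κ, qf F l (X : Pc n → MvPolynomial (Pc n) K) (fun s => C (w s))) ∈ MI σ S T := by
    refine ⟨U, hU, fun y hy hyU => ?_⟩
    have h3 := hdeg y hy hyU
    unfold ND at h3
    push Not at h3
    obtain ⟨l, hl⟩ := h3
    rw [map_prod]
    refine Finset.prod_eq_zero (Finset.mem_univ l) ?_
    rw [eval_qf]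
    exact hl w
  rw [hMI, Ideal.mem_span_singleton] at hmem
  obtain ⟨l, _, hl⟩ := (hFp.dvd_finsetProd_iff _).1 hmem
  have h4 := qf_zero hF hl
  have h5 := eval_qf F l w w
  rw [h4, map_zero, qf_self] at h5
  exact hw h5.symm

end Pool.Agent.Q14.ST
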