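import Pool.Agent.Q164.ST.Stm

/-!
# Project ST, job ST-RANK: ranking inside colour classes
-/

set_option autoImplicit false

namespace Pool.Agent.Q14.ST

open Finset Pool.Agent.Q164.ST

theorem task_RANK : S_RANK := by
  intro V _ U k w
  classical
  obtain ⟨e⟩ : Nonempty (V ≃ Fin (Fintype.card V)) := ⟨Fintype.equivFin V⟩
  obtain ⟨B, hB⟩ : ∃ B : V → V → Prop, ∀ u v, B u v ↔ (w v < w u ∨ (w u = w v ∧ e u < e v)) :=
    ⟨_, fun u v => Iff.rfl⟩
  have hirr : ∀ u, ¬ B u u := by
    intro u h
    rw [hB] at h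
    rcases h with h | h
    · exact lt_irrefl _ h
    · exact lt_irrefl _ h.2
  have htr : ∀ u v x, B u v → B v x → B u x := by
    intro u v x h1 h2
    rw [hB] at h1 h2 ⊢
    rcases h1 with h1 | h1 <;> rcases h2 with h2 | h2
    · left; omega
    · left; omega
    · left; omega
    · right; exact ⟨h1.1.trans h2.1, h1.2.trans h2.2⟩
  have htot : ∀ u v, u ≠ v → B u v ∨ B v u := by
    intro u v h
    rw [hB, hB]
    have h1 : e u ≠ e v := fun h2 => h (e.injective h2)
    rcases lt_trichotomy (w u) (w v) with h2 | h2 | h2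
    · right; left; exact h2
    · rcases lt_or_gt_of_ne h1 with h3 | h3
      · left; right; exact ⟨h2, h3⟩
      · right; right; exact ⟨h2.symm, h3⟩
    · left; left; exact h2
  obtain ⟨ρ, hρ⟩ : ∃ ρ : V → ℕ, ∀ v, ρ v = (U.filter fun x => k x = k v ∧ B x v).card :=
    ⟨_, fun v => rfl⟩
  have hlt : ∀ u ∈ U, ∀ v, k u = k v → B u v → ρ u < ρ v := by
    intro u hu v hk hb
    rw [hρ, hρ]
    refine Finset.card_lt_card ?_
    rw [Finset.ssubset_iff_of_subset]
    · refine ⟨u, ?_, ?_⟩
      · rw [mem_filter]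
        exact ⟨hu, hk, hb⟩
      · rw [mem_filter]
        exact fun h => hirr u h.2.2
    · intro x hx
      rw [mem_filter] at hx ⊢
      exact ⟨hx.1, hx.2.1.trans hk, htr x u v hx.2.2 hb⟩
  refine ⟨ρ, ?_, ?_, ?_⟩
  · intro u hu
    have h1 : {v : V | v ∈ U ∧ k v = k u} = ((U.filter fun v => k v = k u : Finset V) : Set V) := by
      ext v
      rw [Finset.coe_filter]
    rw [h1, Set.ncard_coe_finset, hρ]
    refine Finset.card_lt_card ?_
    rw [Finset.ssubset_iff_of_subset]
    · refine ⟨u, ?_, ?_⟩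
      · rw [mem_filter]
        exact ⟨hu, rfl⟩
      · rw [mem_filter]
        exact fun h => hirr u h.2.2
    · intro x hx
      rw [mem_filter] at hx ⊢
      exact ⟨hx.1, hx.2.1⟩
  · intro u hu v hv hk hρe
    by_contra hne
    rcases htot u v hne with h | h
    · have := hlt u hu v hk h
      omega
    · have := hlt v hv u hk.symm h
      omega
  · intro u hu v hv hk hl
    by_contra hw
    push Not at hw
    have h1 : B v u := (hB v u).2 (Or.inl hw)
    have := hlt v hv u hk.symm h1
    omega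

end Pool.Agent.Q14.ST
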